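import Pool.Agent.H31.SX.TargetsS
import Pool.Agent.H31.SW.Tools
import Pool.Agent.H31.SW.TargetsG
import Pool.Agent.H31.SW.TargetsL
import Pool.Agent.H29.DW.Tools

/-!
# MP_52e316_nt, board swx_modules, row P3: three differences of a product of local data and a
finite datum
-/

set_option autoImplicit false

open NumberField NumberField.InfinitePlace NumberField.Units
  NumberField.Units.dirichletUnitTheorem MeasureTheory Set Filter Complex
open scoped nonZeroDivisors ENNReal Topology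

namespace Pool.Agent.H68.SWX

open Pool.Agent.H25.HK Pool.Agent.H23.LB Pool.Agent.H23.LC
open Pool.Agent.H31.SW
open Pool.Agent.H31.SX
open Pool.Agent.H28.RC (Rep ft)
open Pool.Agent.H29.DW (dg Rl lf wv Pos Wg cpar Ci om zs rv)

/-! ### Local part -/

private theorem dif_continuous {F : ℂ → ℂ} (h : Continuous F) (b : ℂ) : Continuous (dif b F) := by
  unfold dif
  exact (h.comp (continuous_id.add continuous_const)).mul (Complex.continuous_conj.comp h)

private theorem dif_zero {F : ℂ → ℂ} {b w : ℂ} (h : F w = 0) : dif b F w = 0 := by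
  unfold dif
  rw [h, map_zero, mul_zero]

private theorem ld_nice (hHU : W_HU) {n : ℕ} {r t : Bool} {Λ a g : ℂ} {F : ℂ → ℂ}
    (h : LDat n r t Λ a g F) : Continuous F ∧ ∃ R : ℝ, 0 ≤ R ∧ ∀ w, R < ‖w‖ → F w = 0 := by
  cases t with
  | true =>
    obtain ⟨h1, h2, h3, h4, h5, A, hA, rfl⟩ := h.one rfl
    have hΛ : Λ ≠ 0 := by
      rintro rfl
      rw [norm_zero] at h1
      linarith
    have hΛ0 : 0 < ‖Λ‖ := norm_pos_iff.2 hΛ
    have hV : DB 0 (fun _ => (1 : ℝ)) (Metric.ball (1 : ℂ) (1 / 50))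
        (fun η => EE (Λ * psi a η)) := by
      refine ⟨?_, fun η _ => (norm_EE _).le⟩
      intro η hη
      have e1 := ((hHU a h3 h4).2.1 η hη).continuousAt
      exact (continuous_EE.continuousAt.comp (continuousAt_const.mul e1)).continuousWithinAt
    have hA0 : DS 0 1 1 (1 / 500) A := hA.of_le (Nat.zero_le n)
    have hD := hA0.mul_DB' hV Metric.isOpen_ball (Metric.closedBall_subset_ball (by norm_num))
    have e : FT1 Λ a A = (fun z => A z * EE (Λ * psi a z)) ∘ (fun ζ => ζ / Λ) := rfl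
    rw [e]
    refine ⟨hD.continuous.comp (continuous_id.div_const Λ), 2 * ‖Λ‖, by positivity, ?_⟩
    intro w hw
    refine hD.eq_zero ?_
    have h6 : 2 < ‖w / Λ‖ := by
      rw [norm_div, lt_div_iff₀ hΛ0]
      exact hw
    have h7 : ‖w / Λ‖ ≤ ‖w / Λ - 1‖ + 1 := by
      calc ‖w / Λ‖ = ‖(w / Λ - 1) + 1‖ := by rw [sub_add_cancel]
        _ ≤ ‖w / Λ - 1‖ + ‖(1 : ℂ)‖ := norm_add_le _ _
        _ = ‖w / Λ - 1‖ + 1 := by rw [norm_one]
    linarith
  | false =>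
    have hD := h.two rfl
    refine ⟨hD.continuous, ‖g‖ + 2, by positivity, ?_⟩
    intro w hw
    refine hD.eq_zero ?_
    have h7 : ‖w‖ ≤ ‖w - g‖ + ‖g‖ := by
      calc ‖w‖ = ‖(w - g) + g‖ := by rw [sub_add_cancel]
        _ ≤ ‖w - g‖ + ‖g‖ := norm_add_le _ _
    linarith

private theorem Mt_one_le {n : ℕ} {r t : Bool} {Λ a g : ℂ} {F : ℂ → ℂ}
    (h : LDat n r t Λ a g F) : 1 ≤ Mt t Λ := by
  unfold Mt
  cases t with
  | true => simpa using (h.one rfl).1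
  | false => simp

private theorem Ph_nonneg (t : Bool) (Λ b₁ b₂ b₃ : ℂ) : 0 ≤ Ph t Λ b₁ b₂ b₃ := by
  unfold Ph
  split_ifs
  · positivity
  · exact le_rfl

private theorem rp {x : ℝ} (hx : 0 ≤ x) (k : ℕ) : x ^ (-(k : ℝ)) = (x ^ k)⁻¹ := by
  rw [Real.rpow_neg hx, Real.rpow_natCast]

/-- comparison of weights -/
private theorem wt_le {x J : ℝ} (hx : 0 ≤ x) (hJ : 0 < J) (k : ℕ) :
    (1 + x / J) ^ (-((k + 1 : ℕ) : ℝ)) ≤ (max 1 J) ^ (k + 1) * (1 + x) ^ (-(k : ℝ)) := by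
  have hm : 1 ≤ max 1 J := le_max_left _ _
  have hm0 : 0 < max 1 J := by linarith
  have h1 : (1 + x) / max 1 J ≤ 1 + x / J := by
    rw [div_le_iff₀ hm0, add_mul, one_mul]
    have h2 : x ≤ x / J * max 1 J := by
      rw [div_mul_eq_mul_div, le_div_iff₀ hJ]
      exact mul_le_mul_of_nonneg_left (le_max_right _ _) hx
    linarith
  have hpos : 0 < (1 + x) / max 1 J := by positivity
  have hxJ : 0 ≤ x / J := by positivity
  rw [rp (by linarith), rp (by linarith)]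
  have h3 : ((1 + x) / max 1 J) ^ (k + 1) ≤ (1 + x / J) ^ (k + 1) :=
    pow_le_pow_left₀ hpos.le h1 _
  have h4 : ((1 + x / J) ^ (k + 1))⁻¹ ≤ (((1 + x) / max 1 J) ^ (k + 1))⁻¹ :=
    inv_anti₀ (pow_pos hpos _) h3
  refine h4.trans ?_
  rw [div_pow, inv_div, div_eq_mul_inv]
  refine mul_le_mul_of_nonneg_left ?_ (by positivity)
  exact inv_anti₀ (by positivity) (pow_le_pow_right₀ (by linarith) (Nat.le_succ k))

/-! ### Global part -/

section

variable {K : Type} [Field K] [NumberField K]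

private theorem dif_pF (F : InfinitePlace K → ℂ → ℂ) (y : InfinitePlace K → ℝ)
    (ω : InfinitePlace K → ℂ) (g : K) :
    dif g (pF F y ω) = pF (fun v => dif (wv v g y ω) (F v)) y ω := by
  funext x
  unfold dif pF
  rw [map_prod, ← Finset.prod_mul_distrib]
  refine Finset.prod_congr rfl fun v _ => ?_
  rw [Pool.Agent.H29.DW.wv_add]

private theorem PP_pos {R : InfinitePlace K → ℝ} (h : ∀ v, 0 < R v) : 0 < PP R :=
  Finset.prod_pos fun v _ => pow_pos (h v) _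

private theorem PP_div (R S : InfinitePlace K → ℝ) :
    PP (fun v => R v / S v) = PP R / PP S := by
  unfold PP
  rw [← Finset.prod_div_distrib]
  exact Finset.prod_congr rfl fun v _ => div_pow _ _ _

private theorem DD_pos {L : FI K} (hL : 0 < (FractionalIdeal.absNorm L : ℝ))
    (y : InfinitePlace K → ℝ) : 0 < DD L y := div_pos (Real.exp_pos _) hL

private theorem one_le_Nf {r : Ideal (𝓞 K)} (h : r ≠ ⊥) : 1 ≤ Nf K r := by
  unfold Nf
  have h1 : Ideal.absNorm r ≠ 0 := fun h' => h (Ideal.absNorm_eq_zero_iff.1 h')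
  exact_mod_cast Nat.one_le_iff_ne_zero.2 h1

private theorem absNorm_coe_mul (e : Ideal (𝓞 K)) (M : FI K) :
    (FractionalIdeal.absNorm ((e : FI K) * M) : ℝ) =
      Nf K e * (FractionalIdeal.absNorm M : ℝ) := by
  rw [map_mul, FractionalIdeal.coeIdeal_absNorm]
  unfold Nf
  push_cast
  ring

private theorem DD_du (hDU : T_DU) {L : FI K} (hL : L ≠ 0) {k e : Ideal (𝓞 K)} (hk : k ≠ ⊥)
    (he : e ≠ ⊥) (y : InfinitePlace K → ℝ) :
    DD ((e : FI K) * du K ((k : FI K) * L)) (-y) =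
      dK K * Nf K k / (DD L y * Nf K e) := by
  have hkL : (k : FI K) * L ≠ 0 := mul_ne_zero (FractionalIdeal.coeIdeal_ne_zero.2 hk) hL
  obtain ⟨-, -, -, h1, -⟩ := hDU K L hL
  obtain ⟨-, -, -, -, h2⟩ := hDU K ((k : FI K) * L) hkL
  have hk1 := one_le_Nf hk
  have he1 := one_le_Nf he
  have hk0 : 0 < Nf K k := by linarith
  have he0 : 0 < Nf K e := by linarith
  rw [absNorm_coe_mul] at h2
  set A : ℝ := (FractionalIdeal.absNorm (du K ((k : FI K) * L)) : ℝ) with hA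
  set B : ℝ := (FractionalIdeal.absNorm L : ℝ) with hB
  have hA0 : A ≠ 0 := by
    intro h
    rw [h, zero_mul, zero_mul] at h2
    exact zero_ne_one h2
  have e1 : Real.exp (-(∑ v : InfinitePlace K, (v.mult : ℝ) * (-y) v) / 2) *
      Real.exp (-(∑ v : InfinitePlace K, (v.mult : ℝ) * y v) / 2) = 1 := by
    rw [← Real.exp_add, Real.exp_eq_one_iff]
    simp only [Pi.neg_apply, mul_neg, Finset.sum_neg_distrib]
    ring
  have hDpos := DD_pos h1 y
  rw [eq_div_iff (mul_pos hDpos he0).ne']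
  unfold DD dK
  rw [absNorm_coe_mul, ← hA, ← hB]
  set E1 := Real.exp (-(∑ v : InfinitePlace K, (v.mult : ℝ) * (-y) v) / 2)
  set E2 := Real.exp (-(∑ v : InfinitePlace K, (v.mult : ℝ) * y v) / 2)
  have hB0 : B ≠ 0 := h1.ne'
  have e2 : E1 / (Nf K e * A) * (E2 / B * Nf K e) = (E1 * E2) / (A * B) := by
    field_simp
  rw [e2, e1, div_eq_iff (mul_ne_zero hA0 hB0), ← h2]
  ring

private theorem one_le_dK : 1 ≤ dK K := by
  unfold dK
  have h : (1 : ℤ) ≤ |discr K| := Int.one_le_abs (discr_ne_zero K)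
  have h2 : ((1 : ℤ) : ℝ) ≤ ((|discr K| : ℤ) : ℝ) := by exact_mod_cast h
  simpa using h2

private theorem wv_ne {g : K} (hg : g ≠ 0) (v : InfinitePlace K) (y : InfinitePlace K → ℝ)
    {ω : InfinitePlace K → ℂ} (h : Pos ω) : wv v g y ω ≠ 0 := by
  rw [← norm_pos_iff, Pool.Agent.H29.DW.norm_wv v g y h]
  exact mul_pos (InfinitePlace.pos_iff.2 hg) (Real.exp_pos _)

end

/-- the numbers -/
private theorem num3 {D M Q d B W Nk NG Ne Nr : ℝ} (hD : 0 < D) (hM : 0 < M) (hQ : 0 < Q)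
    (hd : 1 ≤ d) (hB : 0 ≤ B) (hW : 0 ≤ W) (hNk : 0 < Nk) (hNG : 0 < NG) (hNe : 0 < Ne)
    (hNr : 1 ≤ Nr) (hle : NG ≤ Ne * Nr) :
    D / (Nk * Real.sqrt d) * ((Nr ^ 2 * Real.sqrt (Nk * NG)) * (B * M * Q ^ (-(1 / 2) : ℝ) *
      (W * (1 + d * Nk / (D * Ne) * (Q / M))))) ≤
      B * W * Nr ^ 3 * Real.sqrt d * (D * M * Q ^ (-(1 / 2) : ℝ) * Real.sqrt (NG / Nk) +
        Q ^ (1 / 2 : ℝ) * Real.sqrt (Nk / NG)) := by
  have hs1 : 1 ≤ Real.sqrt d := Real.one_le_sqrt.2 hd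
  have hs0 : 0 < Real.sqrt d := by linarith
  have hss : Real.sqrt d * Real.sqrt d = d := Real.mul_self_sqrt (by linarith)
  have hq : Q ^ (1 / 2 : ℝ) = Q ^ (-(1 / 2) : ℝ) * Q := by
    nth_rw 3 [← Real.rpow_one Q]
    rw [← Real.rpow_add hQ]
    norm_num
  have hq0 : 0 < Q ^ (-(1 / 2) : ℝ) := Real.rpow_pos_of_pos hQ _
  rw [Real.sqrt_mul hNk.le, Real.sqrt_div hNG.le, Real.sqrt_div hNk.le, hq]
  have ha0 : 0 < Real.sqrt Nk := Real.sqrt_pos.2 hNk
  have hb0 : 0 < Real.sqrt NG := Real.sqrt_pos.2 hNG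
  have haa : Real.sqrt Nk * Real.sqrt Nk = Nk := Real.mul_self_sqrt hNk.le
  have hbb : Real.sqrt NG * Real.sqrt NG = NG := Real.mul_self_sqrt hNG.le
  generalize Real.sqrt d = s at *
  generalize Real.sqrt Nk = a at *
  generalize Real.sqrt NG = b at *
  generalize Q ^ (-(1 / 2) : ℝ) = q at *
  subst hss
  subst haa
  subst hbb
  have hNr0 : 0 < Nr := by linarith
  have e : D / (a * a * s) * (Nr ^ 2 * (a * b) * (B * M * q *
      (W * (1 + s * s * (a * a) / (D * Ne) * (Q / M))))) =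
      B * W * (Nr ^ 2 * (D * M * q * (b / a)) / s + Nr ^ 2 * s * (q * Q) * (a * (b / Ne))) := by
    field_simp
  rw [e, mul_assoc (B * W), mul_assoc (B * W)]
  refine mul_le_mul_of_nonneg_left ?_ (mul_nonneg hB hW)
  have h1 : Nr ^ 2 * (D * M * q * (b / a)) / s ≤ Nr ^ 3 * s * (D * M * q * (b / a)) := by
    rw [div_le_iff₀ hs0]
    have h2 : 0 ≤ D * M * q * (b / a) := by positivity
    have h3 : Nr ^ 2 ≤ Nr ^ 3 * s * s := by
      have h4 : Nr ^ 2 ≤ Nr ^ 3 := pow_le_pow_right₀ hNr (by norm_num)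
      have h5 : Nr ^ 3 ≤ Nr ^ 3 * (s * s) := le_mul_of_one_le_right (by positivity) hd
      linarith
    calc Nr ^ 2 * (D * M * q * (b / a)) ≤ (Nr ^ 3 * s * s) * (D * M * q * (b / a)) :=
          mul_le_mul_of_nonneg_right h3 h2
      _ = _ := by ring
  have h2 : Nr ^ 2 * s * (q * Q) * (a * (b / Ne)) ≤ Nr ^ 3 * s * (q * Q * (a / b)) := by
    have h3 : b / Ne ≤ Nr / b := by
      rw [div_le_div_iff₀ hNe hb0]
      linarith
    calc Nr ^ 2 * s * (q * Q) * (a * (b / Ne)) ≤ Nr ^ 2 * s * (q * Q) * (a * (Nr / b)) := by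
          gcongr
      _ = _ := by
          field_simp
  calc _ ≤ Nr ^ 3 * s * (D * M * q * (b / a)) + Nr ^ 3 * s * (q * Q * (a / b)) :=
        add_le_add h1 h2
    _ = _ := by ring

private theorem dif_mul {K : Type} [Add K] (b : K) (F G : K → ℂ) :
    dif b (fun x => F x * G x) = fun x => dif b F x * dif b G x := by
  funext x
  unfold dif
  rw [map_mul]
  ring

/-- Row P3 -/
theorem pf_P3 (hL3 : Pool.Agent.H31.SW.W_L3) (hWS : Pool.Agent.H31.SW.W_WS) (hPO : X_PO)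
    (hHU : Pool.Agent.H31.SW.W_HU) (hDU : T_DU) (hRX : Pool.Agent.H28.RC.T_RX) : X_P3 := by
  classical
  intro n hn
  obtain ⟨C₀, hC₀, H3⟩ := hL3 (n + 2)
  obtain ⟨CW, hCW, HW⟩ := hWS n hn
  obtain ⟨C, hC1, hC0⟩ : ∃ C : ℝ, 1 ≤ C ∧ C₀ ≤ C := ⟨max 1 C₀, le_max_left _ _, le_max_right _ _⟩
  refine ⟨C ^ n * CW, by positivity, ?_⟩
  intro K _ _ hK L y ω t Λ a g F k r Φ hL hω hk hr hF hΦ g₁ g₂ g₃ e₁ e₂ e₃ hg1 hg2 hg3 hm1 hm2 hm3
    hgc1 hgc2 hgc3 hb
  -- the local functions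
  set b₁ : InfinitePlace K → ℂ := fun v => wv v g₁ y ω with hb1
  set b₂ : InfinitePlace K → ℂ := fun v => wv v g₂ y ω with hb2
  set b₃ : InfinitePlace K → ℂ := fun v => wv v g₃ y ω with hb3
  set G : InfinitePlace K → ℂ → ℂ := fun v => dif (b₃ v) (dif (b₂ v) (dif (b₁ v) (F v))) with hG
  set P : InfinitePlace K → ℝ := fun v => Ph (t v) (Λ v) (b₁ v) (b₂ v) (b₃ v) with hP
  set M : InfinitePlace K → ℝ := fun v => Mt (t v) (Λ v) with hM
  have hM1 : ∀ v, 1 ≤ M v := fun v => Mt_one_le (hF v)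
  have hM0 : ∀ v, 0 < M v := fun v => lt_of_lt_of_le one_pos (hM1 v)
  have hP0 : ∀ v, 0 ≤ P v := fun v => Ph_nonneg _ _ _ _ _
  have hQ0 : ∀ v, 0 < 1 + P v := fun v => by have := hP0 v; linarith
  have hJ0 : ∀ v, 0 < (1 + P v) / M v := fun v => div_pos (hQ0 v) (hM0 v)
  -- the local bound
  have hloc : ∀ v X, Rl (rv v) X → ‖FF (rv v) (G v) X‖ ≤
      C * M v ^ dg (rv v) * (1 + P v) ^ (-(dg (rv v) : ℝ) / 2) *
        (1 + ‖X‖ / ((1 + P v) / M v)) ^ (-((n + 1 + 1 : ℕ) : ℝ)) := by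
    intro v X hX
    have h1 := H3 (rv v) (t v) (Λ v) (a v) (g v) (b₁ v) (b₂ v) (b₃ v) X (F v) (hF v)
      (Pool.Agent.H29.DW.Rl_wv v g₁ y hω) (Pool.Agent.H29.DW.Rl_wv v g₂ y hω)
      (Pool.Agent.H29.DW.Rl_wv v g₃ y hω)
      (fun ht => ⟨wv_ne hg1 v y hω, wv_ne hg2 v y hω, wv_ne hg3 v y hω, hb v ht⟩) hX
    have e1 : ‖X‖ / ((1 + P v) / M v) = ‖X‖ * Mt (t v) (Λ v) /
        (1 + Ph (t v) (Λ v) (b₁ v) (b₂ v) (b₃ v)) := by
      rw [div_div_eq_mul_div]
    rw [e1]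
    refine h1.trans ?_
    have h2 : 0 ≤ Mt (t v) (Λ v) := (hM0 v).le
    have h3 : 0 ≤ 1 + Ph (t v) (Λ v) (b₁ v) (b₂ v) (b₃ v) := (hQ0 v).le
    gcongr
  -- Poisson summation
  have hnice := fun v => ld_nice hHU (hF v)
  choose hcont R hR0 hR using hnice
  have hGc : ∀ v, Continuous (G v) := fun v =>
    dif_continuous (dif_continuous (dif_continuous (hcont v) _) _) _
  have hGs : ∃ R' : ℝ, ∀ v w, R' < ‖w‖ → G v w = 0 := by
    refine ⟨∑ v, R v, fun v w hw => ?_⟩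
    have h1 : R v ≤ ∑ v, R v := Finset.single_le_sum (fun v _ => hR0 v) (Finset.mem_univ v)
    exact dif_zero (dif_zero (dif_zero (hR v w (by linarith))))
  have hGd : ∃ C' : ℝ, ∀ v ξ, Rl (rv v) ξ → ‖FF (rv v) (G v) ξ‖ ≤
      C' * (1 + ‖ξ‖) ^ (-(Module.finrank ℚ K + 1 : ℝ)) := by
    set c : InfinitePlace K → ℝ := fun v => C * M v ^ dg (rv v) *
      (1 + P v) ^ (-(dg (rv v) : ℝ) / 2) * (max 1 ((1 + P v) / M v)) ^ (n + 1 + 1) with hc
    have hc0 : ∀ v, 0 ≤ c v := by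
      intro v
      have h2 := hM0 v
      have h3 := hQ0 v
      positivity
    refine ⟨∑ v, c v, fun v ξ hξ => ?_⟩
    have h1 := hloc v ξ hξ
    have h2 := wt_le (norm_nonneg ξ) (hJ0 v) (n + 1)
    have h3 : c v ≤ ∑ v, c v := Finset.single_le_sum (fun v _ => hc0 v) (Finset.mem_univ v)
    have e : (-(Module.finrank ℚ K + 1 : ℝ)) = (-((n + 1 : ℕ) : ℝ)) := by
      rw [hK]
      push_cast
      ring
    rw [e]
    have h4 : 0 ≤ (1 + ‖ξ‖) ^ (-((n + 1 : ℕ) : ℝ)) := by positivity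
    have h5 : 0 ≤ C * M v ^ dg (rv v) * (1 + P v) ^ (-(dg (rv v) : ℝ) / 2) := by
      have h2 := hM0 v
      have h3 := hQ0 v
      positivity
    calc ‖FF (rv v) (G v) ξ‖ ≤ _ := h1
      _ ≤ C * M v ^ dg (rv v) * (1 + P v) ^ (-(dg (rv v) : ℝ) / 2) *
          ((max 1 ((1 + P v) / M v)) ^ (n + 1 + 1) * (1 + ‖ξ‖) ^ (-((n + 1 : ℕ) : ℝ))) :=
        mul_le_mul_of_nonneg_left h2 h5
      _ = c v * (1 + ‖ξ‖) ^ (-((n + 1 : ℕ) : ℝ)) := by rw [hc]; ring
      _ ≤ _ := mul_le_mul_of_nonneg_right h3 h4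
  obtain ⟨X, hX, -⟩ := hRX K k L hk hL
  set c : K → ℂ := dif g₃ (dif g₂ (dif g₁ Φ)) with hc
  obtain ⟨-, hpo⟩ := hPO K k L X c G hk hL hX (fun x hx t ht => hΦ.per g₁ hm1 g₂ hm2 g₃ hm3 x hx t ht)
    hGc hGs hGd y ω hω
  have hdif : ∀ x, dif g₃ (dif g₂ (dif g₁ (fun x => Φ x * pF F y ω x))) x = c x * pF G y ω x := by
    intro x
    rw [dif_mul, dif_mul, dif_mul, dif_pF, dif_pF, dif_pF]
  rw [tsum_congr fun x : {x : K // x ∈ L} => hdif x, hpo, norm_mul, Complex.norm_real]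
  obtain ⟨e, he, hNe, hcor⟩ := hΦ.cor g₁ hm1 g₂ hm2 g₃ hm3 e₁ e₂ e₃ hgc1 hgc2 hgc3
  have hcor := hcor X hX
  have hkL : (k : FI K) * L ≠ 0 := mul_ne_zero (FractionalIdeal.coeIdeal_ne_zero.2 hk) hL
  obtain ⟨hdu0, -, -, -, -⟩ := hDU K ((k : FI K) * L) hkL
  obtain ⟨-, -, -, hLn, -⟩ := hDU K L hL
  have hDD := DD_pos hLn y
  have hd1 := one_le_dK (K := K)
  have hk1 := one_le_Nf hk
  have hr1 := one_le_Nf hr
  have he1 := one_le_Nf he
  have hG1 : 1 ≤ Nf K (k ⊔ e₁ * e₂ * e₃) := one_le_Nf fun h => hk (eq_bot_mono le_sup_left h)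
  have hDs : 0 ≤ DD L y / (Nf K k * Real.sqrt (dK K)) := by positivity
  rw [Real.norm_of_nonneg hDs]
  -- the dual sum
  set L' : FI K := (e : FI K) * du K ((k : FI K) * L) with hL'
  have hL'0 : L' ≠ 0 := mul_ne_zero (FractionalIdeal.coeIdeal_ne_zero.2 he) hdu0
  have hL'le : ∀ x : K, x ∈ L' → x ∈ du K ((k : FI K) * L) := by
    intro x hx
    have h1 : L' ≤ 1 * du K ((k : FI K) * L) :=
      mul_le_mul_left (FractionalIdeal.coeIdeal_le_one) _
    rw [one_mul] at h1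
    exact h1 hx
  obtain ⟨hWs, hWb⟩ := HW K hK L' (-y) (fun v => (starRingEnd ℂ) (ω v))
    (fun v => (1 + P v) / M v) (n + 1 + 1) hL'0 (Pool.Agent.H29.DW.Pos.conj hω) hJ0 (by omega)
  set A : ℝ := ∏ v : InfinitePlace K,
    (C * M v ^ dg (rv v) * (1 + P v) ^ (-(dg (rv v) : ℝ) / 2)) with hA
  have hA0 : 0 ≤ A := Finset.prod_nonneg fun v _ => by
    have h2 := hM0 v
    have h3 := hQ0 v
    positivity
  set Bf : ℝ := Nf K r ^ 2 * Real.sqrt (Nf K k * Nf K (k ⊔ e₁ * e₂ * e₃)) with hBf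
  have hBf0 : 0 ≤ Bf := by positivity
  have hterm : ∀ x : K, ‖∏ v, FF (rv v) (G v)
      (2 * Real.pi * dg (rv v) * wv v x (-y) (fun v => (starRingEnd ℂ) (ω v)))‖ ≤
      A * ∏ v : InfinitePlace K, (1 + ‖wv v x (-y) (fun v => (starRingEnd ℂ) (ω v))‖ /
        ((1 + P v) / M v)) ^ (-((n + 1 + 1 : ℕ) : ℝ)) := by
    intro x
    rw [norm_prod, hA, ← Finset.prod_mul_distrib]
    refine Finset.prod_le_prod (fun v _ => norm_nonneg _) fun v _ => ?_
    have hRl : Rl (rv v) (2 * Real.pi * dg (rv v) *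
        wv v x (-y) (fun v => (starRingEnd ℂ) (ω v))) := by
      have h1 : (2 * Real.pi * dg (rv v) : ℂ) = ((2 * Real.pi * (dg (rv v) : ℝ) : ℝ) : ℂ) := by
        push_cast
        ring
      rw [h1]
      exact Rl_mul (Rl_ofReal _ _)
        (Pool.Agent.H29.DW.Rl_wv v x (-y) (Pool.Agent.H29.DW.Pos.conj hω))
    refine (hloc v _ hRl).trans ?_
    have h5 : 0 ≤ C * M v ^ dg (rv v) * (1 + P v) ^ (-(dg (rv v) : ℝ) / 2) := by
      have h2 := hM0 v
      have h3 := hQ0 v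
      positivity
    refine mul_le_mul_of_nonneg_left ?_ h5
    have h6 : ‖wv v x (-y) (fun v => (starRingEnd ℂ) (ω v))‖ ≤
        ‖(2 * Real.pi * dg (rv v) * wv v x (-y) (fun v => (starRingEnd ℂ) (ω v)) : ℂ)‖ := by
      have h1 : (2 * Real.pi * dg (rv v) : ℂ) = ((2 * Real.pi * (dg (rv v) : ℝ) : ℝ) : ℂ) := by
        push_cast
        ring
      have h7 : (1 : ℝ) ≤ dg (rv v) := by
        rw [Pool.Agent.H29.DW.dg_rv]
        exact_mod_cast (Pool.Agent.H29.DW.mult_pos' v).1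
      have h8 := Real.pi_gt_three
      have h9 : (1 : ℝ) ≤ 2 * Real.pi * (dg (rv v) : ℝ) := by nlinarith
      rw [norm_mul, h1, Complex.norm_real, Real.norm_of_nonneg (by linarith)]
      exact le_mul_of_one_le_left (norm_nonneg _) h9
    have hJ := hJ0 v
    rw [rp (by positivity), rp (by positivity)]
    refine inv_anti₀ (by positivity) (pow_le_pow_left₀ (by positivity) ?_ _)
    gcongr
  have hb0 : ‖∑' x : {x : K // x ∈ du K ((k : FI K) * L)}, ft K X c x * ∏ v, FF (rv v) (G v)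
      (2 * Real.pi * dg (rv v) * wv v x (-y) (fun v => (starRingEnd ℂ) (ω v)))‖ ≤
      Bf * (A * (CW * (1 + DD L' (-y) * PP (fun v => (1 + P v) / M v)))) := by
    have hi : Function.Injective (fun x : {x : K // x ∈ L'} =>
        (⟨x.1, hL'le x.1 x.2⟩ : {x : K // x ∈ du K ((k : FI K) * L)})) := by
      intro x x' h
      exact Subtype.ext (congrArg (fun z : {x : K // x ∈ du K ((k : FI K) * L)} => z.1) h)
    have hsub : ∑' x : {x : K // x ∈ du K ((k : FI K) * L)}, ft K X c x *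
        ∏ v, FF (rv v) (G v)
          (2 * Real.pi * dg (rv v) * wv v x (-y) (fun v => (starRingEnd ℂ) (ω v))) =
        ∑' x : {x : K // x ∈ L'}, ft K X c x * ∏ v, FF (rv v) (G v)
          (2 * Real.pi * dg (rv v) * wv v x (-y) (fun v => (starRingEnd ℂ) (ω v))) := by
      refine (hi.tsum_eq (f := fun x : {x : K // x ∈ du K ((k : FI K) * L)} => ft K X c x *
        ∏ v, FF (rv v) (G v)
          (2 * Real.pi * dg (rv v) * wv v x (-y) (fun v => (starRingEnd ℂ) (ω v)))) ?_).symm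
      intro x hx
      have h1 : ft K X c x.1 ≠ 0 := fun h => hx (by
        show ft K X c x.1 * _ = 0
        rw [h, zero_mul])
      exact ⟨⟨x.1, (hcor x.1 x.2).2 h1⟩, rfl⟩
    rw [hsub]
    have hs2 := (hWs.mul_left (Bf * A)).hasSum
    rw [tsum_mul_left] at hs2
    refine (tsum_of_norm_bounded hs2 fun x => ?_).trans ?_
    · rw [norm_mul, mul_assoc]
      exact mul_le_mul (hcor x.1 (hL'le x.1 x.2)).1 (hterm x.1) (norm_nonneg _) hBf0
    · rw [mul_assoc]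
      exact mul_le_mul_of_nonneg_left (mul_le_mul_of_nonneg_left hWb hA0) hBf0
  have hPPQ : 0 < PP (fun v => 1 + P v) := PP_pos hQ0
  have hPPM : 0 < PP M := PP_pos hM0
  have hAle : A ≤ C ^ n * PP M * PP (fun v => 1 + P v) ^ (-(1 / 2) : ℝ) := by
    have e1 : A = C ^ Fintype.card (InfinitePlace K) * PP M *
        PP (fun v => 1 + P v) ^ (-(1 / 2) : ℝ) := by
      rw [hA, Finset.prod_mul_distrib, Finset.prod_mul_distrib, Finset.prod_const,
        Finset.card_univ]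
      congr 1
      · congr 1
        exact Finset.prod_congr rfl fun v _ => by rw [Pool.Agent.H29.DW.dg_rv]
      · unfold PP
        rw [← Real.finsetProd_rpow _ _ (fun v _ => pow_nonneg (hQ0 v).le _)]
        refine Finset.prod_congr rfl fun v _ => ?_
        rw [← Real.rpow_natCast, ← Real.rpow_mul (hQ0 v).le, Pool.Agent.H29.DW.dg_rv]
        congr 1
        ring
    rw [e1]
    have h1 : C ^ Fintype.card (InfinitePlace K) ≤ C ^ n :=
      pow_le_pow_right₀ hC1 (Pool.Agent.H29.DW.card_places_le hK)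
    gcongr
  have hfin := num3 hDD hPPM hPPQ hd1 (by positivity : (0 : ℝ) ≤ C ^ n)
    (by linarith : (0 : ℝ) ≤ CW) (by linarith : 0 < Nf K k)
    (by linarith : 0 < Nf K (k ⊔ e₁ * e₂ * e₃)) (by linarith : 0 < Nf K e) hr1 hNe
  refine (mul_le_mul_of_nonneg_left hb0 hDs).trans (le_trans ?_ hfin)
  rw [hL', DD_du hDU hL hk he, PP_div]
  refine mul_le_mul_of_nonneg_left ?_ hDs
  refine mul_le_mul_of_nonneg_left ?_ hBf0
  refine mul_le_mul_of_nonneg_right hAle ?_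
  positivity

end Pool.Agent.H68.SWX
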